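import Pool.Agent.H975R3.SmallCard
import Pool.Agent.Results.MP_cac120_al.SmallHopf
import Pool.Agent.Results.MP_ab1175_al.HopfianImpliesSmall

/-!
# Small varieties of groups: equivalent conditions and the Hopf property

For every variety of groups: it is small if and only if it has fewer than continuum many finitely
generated groups, if and only if its finitely generated groups satisfy the maximal condition on
normal subgroups, if and only if they have only countably many normal subgroups, if and only if
none of them has continuum many normal subgroups. In this case all of them are Hopfian; for soluble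
varieties the converse holds.
-/

set_option autoImplicit false

namespace Pool.Agent.Results.MP_cac120_al.SmallEquivalences

open Pool.Agent Pool.Agent.Helper730.SM

/-- `G` belongs to the variety of groups defined by the laws `w = 1`, `w ∈ W`. -/
def InVariety (W : Set (FreeGroup ℕ)) (G : Type) [Group G] : Prop :=
  ∀ w ∈ W, ∀ f : ℕ → G, FreeGroup.lift f w = 1

/-- The variety defined by `W` is small: up to isomorphism, it contains at most countably many
finitely generated groups. -/
def Small (W : Set (FreeGroup ℕ)) : Prop :=
  ∃ (T : ℕ → Type) (_ : ∀ n, Group (T n)),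
    ∀ (H : Type) [Group H], Group.FG H → InVariety W H → ∃ n, Nonempty (H ≃* T n)

/-- The variety contains fewer than continuum many finitely generated groups: no family of pairwise
non-isomorphic finitely generated groups in it is indexed by all sets of natural numbers. -/
def BelowContinuum (W : Set (FreeGroup ℕ)) : Prop :=
  ¬ ∃ (G : Set ℕ → Type) (_ : ∀ s, Group (G s)), (∀ s, Group.FG (G s)) ∧
    (∀ s, InVariety W (G s)) ∧ ∀ s t, Nonempty (G s ≃* G t) → s = t

/-- Every finitely generated group in the variety satisfies the maximal condition on normal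
subgroups: ascending sequences of normal subgroups are eventually constant. -/
def AllMaxN (W : Set (FreeGroup ℕ)) : Prop :=
  ∀ (G : Type) [Group G], Group.FG G → InVariety W G →
    ∀ N : ℕ → Subgroup G, (∀ n, (N n).Normal) → Monotone N → ∃ k, ∀ m, k ≤ m → N m = N k

/-- Every finitely generated group in the variety has only countably many normal subgroups. -/
def AllCountNormal (W : Set (FreeGroup ℕ)) : Prop :=
  ∀ (G : Type) [Group G], Group.FG G → InVariety W G → Countable {N : Subgroup G // N.Normal}

/-- No finitely generated group in the variety has continuum many normal subgroups. -/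
def NoneContinuum (W : Set (FreeGroup ℕ)) : Prop :=
  ∀ (G : Type) [Group G], Group.FG G → InVariety W G →
    ¬ ∃ f : Set ℕ → {N : Subgroup G // N.Normal}, Function.Injective f

/-- Every finitely generated group in the variety is Hopfian. -/
def AllHopfian (W : Set (FreeGroup ℕ)) : Prop :=
  ∀ (G : Type) [Group G], Group.FG G → InVariety W G →
    ∀ φ : G →* G, Function.Surjective φ → Function.Injective φ

/-- The variety is soluble: the derived lengths of its groups are bounded. -/
def Soluble (W : Set (FreeGroup ℕ)) : Prop :=
  ∃ d : ℕ, ∀ (G : Type) [Group G], InVariety W G → derivedSeries G d = ⊥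

variable {W : Set (FreeGroup ℕ)}

theorem below_of_small (h : Small W) : BelowContinuum W := by
  obtain ⟨T, _, hT⟩ := h
  rintro ⟨G, _, hfg, hG, hne⟩
  choose n hn using fun s => hT (G s) (hfg s) (hG s)
  refine Function.cantor_injective n fun s t hst => hne s t ?_
  obtain ⟨e⟩ := hn s
  have h2 := hn t
  rw [← hst] at h2
  obtain ⟨e'⟩ := h2
  exact ⟨e.trans e'.symm⟩

theorem none_of_below (h : BelowContinuum W) : NoneContinuum W := by
  intro G _ hfg hG
  exact H975R3.nb_of_lt_continuum W h G hG G hfg (inVar_self G)

theorem nb_of_none (h : NoneContinuum W) (G : Type) [Group G] (hG : InVariety W G) : NB G := by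
  intro H _ hfg hvar
  refine h H hfg fun w hw f => ?_
  refine hvar w (fun g => ?_) (FreeGroup.lift f)
  have h1 : g = FreeGroup.lift (fun n => g (FreeGroup.of n)) := by
    ext n
    simp
  rw [h1]
  exact hG w hw _

theorem maxN_of_none (h : NoneContinuum W) : AllMaxN W := by
  intro G _ hfg hG N hN hmono
  exact H975R3.maxn_of_nb (nb_of_none h G hG) hfg N hN hmono

theorem maxN_of_chain {G : Type} [Group G]
    (h : ∀ N : ℕ → Subgroup G, (∀ n, (N n).Normal) → Monotone N → ∃ k, ∀ m, k ≤ m → N m = N k) :
    H53R2.MaxN G := by
  refine wellFoundedGT_iff_monotone_chain_condition.2 fun a => ?_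
  obtain ⟨k, hk⟩ := h (fun n => (a n).1) (fun n => (a n).2) (fun m n hmn => a.monotone hmn)
  exact ⟨k, fun m hm => Subtype.ext (hk m hm).symm⟩

theorem count_of_gen {G : Type} [Group G] (hfg : Group.FG G)
    (h : ∀ N : Subgroup G, N.Normal → ∃ S : Finset G, N = Subgroup.normalClosure (S : Set G)) :
    Countable {N : Subgroup G // N.Normal} := by
  have hc : Countable G := countable_of_fg hfg
  choose S hS using fun N : {N : Subgroup G // N.Normal} => h N.1 N.2
  have hinj : Function.Injective S := by
    intro M N hMN
    apply Subtype.ext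
    rw [hS M, hS N, hMN]
  exact hinj.countable

theorem count_of_maxN (h : AllMaxN W) : AllCountNormal W := by
  intro G _ hfg hG
  exact count_of_gen hfg fun N hN => (maxN_of_chain (h G hfg hG)).normalClosure N hN

theorem none_of_count (h : AllCountNormal W) : NoneContinuum W := by
  rintro G _ hfg hG ⟨f, hf⟩
  have := h G hfg hG
  obtain ⟨g, hg⟩ := exists_injective_nat {N : Subgroup G // N.Normal}
  exact Function.cantor_injective (g ∘ f) (hg.comp hf)

theorem small_of_maxN (h : AllMaxN W) : Small W := by
  classical
  have hRF : ∀ n, H53R2.MaxN (H53R2.RF W n) := fun n =>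
    maxN_of_chain (h (H53R2.RF W n) (QuotientGroup.fg _) (H53R2.RF_inVar W n))
  have hcount : ∀ n, Countable (H53R2.RF W n) := fun n =>
    (QuotientGroup.mk'_surjective (H53R2.verb W n)).countable
  have : Nonempty (Σ n : ℕ, Finset (H53R2.RF W n)) := ⟨⟨0, ∅⟩⟩
  obtain ⟨e, he⟩ := exists_surjective_nat (Σ n : ℕ, Finset (H53R2.RF W n))
  refine ⟨fun k => H53R2.RF W (e k).1 ⧸
    Subgroup.normalClosure ((e k).2 : Set (H53R2.RF W (e k).1)), fun k => inferInstance, ?_⟩
  intro G _ hfg hG
  obtain ⟨α, hα, ψ, hψ⟩ := Group.fg_iff_exists_freeGroup_hom_surjective_finite.1 hfg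
  obtain ⟨n, ⟨q⟩⟩ := Finite.exists_equiv_fin α
  let f : Fin n → G := fun j => ψ (FreeGroup.of (q.symm j))
  have hG' : H53R2.InVar W G := hG
  let Φ : H53R2.RF W n →* G := H53R2.RF.lift hG' f
  have hΦ : Function.Surjective Φ := by
    intro g
    obtain ⟨x, rfl⟩ := hψ g
    refine ⟨QuotientGroup.mk (FreeGroup.map q x), ?_⟩
    have h1 : (Φ.comp (QuotientGroup.mk' (H53R2.verb W n))).comp (FreeGroup.map q) = ψ := by
      apply FreeGroup.ext_hom
      intro a
      show H53R2.RF.lift hG' f (QuotientGroup.mk' (H53R2.verb W n)
        (FreeGroup.map q (FreeGroup.of a))) = _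
      rw [FreeGroup.map.of, H53R2.RF.lift_mk, FreeGroup.lift_apply_of]
      show ψ (FreeGroup.of (q.symm (q a))) = _
      rw [Equiv.symm_apply_apply]
    exact congrArg (fun φ => φ x) h1
  obtain ⟨S, hS⟩ := (hRF n).normalClosure Φ.ker inferInstance
  obtain ⟨k, hk⟩ := he ⟨n, S⟩
  have h2 : Nonempty (G ≃* H53R2.RF W n ⧸ Subgroup.normalClosure (S : Set (H53R2.RF W n))) :=
    ⟨((QuotientGroup.quotientMulEquivOfEq hS.symm).trans
      (QuotientGroup.quotientKerEquivOfSurjective Φ hΦ)).symm⟩
  refine ⟨k, ?_⟩
  show Nonempty (G ≃* H53R2.RF W (e k).1 ⧸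
    Subgroup.normalClosure ((e k).2 : Set (H53R2.RF W (e k).1)))
  rw [hk]
  exact h2

theorem hopf_of_maxN (h : AllMaxN W) : AllHopfian W := by
  intro G _ hfg hG
  exact Pool.Agent.Results.MP_cac120_al.SmallHopf.hopf_of_maxn (h G hfg hG)

theorem small_of_hopf (hs : Soluble W) (h : AllHopfian W) : Small W := by
  obtain ⟨h1, -⟩ := Pool.Agent.Results.MP_ab1175_al.HopfianImpliesSmall.result W hs h
  exact small_of_maxN (maxN_of_none (none_of_count fun G _ hfg hG =>
    count_of_gen hfg (h1 G hfg hG)))

/-- For every variety of groups (defined by a set `W` of laws) the following are equivalent: it is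
small; it contains fewer than continuum many finitely generated groups; all its finitely generated
groups satisfy the maximal condition on normal subgroups; they have only countably many normal
subgroups; none of them has continuum many normal subgroups. If the variety is small, then all its
finitely generated groups are Hopfian; the converse holds for soluble varieties. -/
theorem result (W : Set (FreeGroup ℕ)) :
    (Small W ↔ BelowContinuum W) ∧ (Small W ↔ AllMaxN W) ∧ (Small W ↔ AllCountNormal W) ∧
    (Small W ↔ NoneContinuum W) ∧ (Small W → AllHopfian W) ∧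
    (Soluble W → (Small W ↔ AllHopfian W)) := by
  have h1 : Small W → NoneContinuum W := fun h => none_of_below (below_of_small h)
  have h2 : NoneContinuum W → Small W := fun h => small_of_maxN (maxN_of_none h)
  exact ⟨⟨below_of_small, fun h => h2 (none_of_below h)⟩,
    ⟨fun h => maxN_of_none (h1 h), small_of_maxN⟩,
    ⟨fun h => count_of_maxN (maxN_of_none (h1 h)), fun h => h2 (none_of_count h)⟩, ⟨h1, h2⟩,
    fun h => hopf_of_maxN (maxN_of_none (h1 h)),
    fun hs => ⟨fun h => hopf_of_maxN (maxN_of_none (h1 h)), small_of_hopf hs⟩⟩

end Pool.Agent.Results.MP_cac120_al.SmallEquivalences
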